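import Pool.Agent.W763.PB.Stm

/-! Project PB: the spectral isometry. -/

set_option autoImplicit false
set_option linter.unusedSectionVars false
open MeasureTheory Filter Topology
open scoped InnerProductSpace ComplexConjugate

namespace Pool.Agent.W638.PB

open Pool.Agent.W763.PB

noncomputable section

section meas

variable {μ : Measure ℂ} [IsFiniteMeasure μ] (hμ : μ (Metric.sphere (0 : ℂ) 1)ᶜ = 0)

theorem ae_circle {μ : Measure ℂ} (h : μ (Metric.sphere (0 : ℂ) 1)ᶜ = 0) : ∀ᵐ z ∂μ, ‖z‖ = 1 := by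
  rw [ae_iff]
  refine measure_mono_null ?_ h
  intro z hz
  simpa using hz

theorem meas_zpow (j : ℤ) : Measurable (fun z : ℂ => z ^ j) := by
  cases j with
  | ofNat n => simpa using ((measurable_id (α := ℂ)).pow_const n)
  | negSucc n =>
    simp only [zpow_negSucc]
    exact ((measurable_id (α := ℂ)).pow_const (n + 1)).inv

include hμ in
theorem memLp_zpow (j : ℤ) : MemLp (fun z : ℂ => z ^ j) 2 μ := by
  refine MemLp.of_bound (meas_zpow j).aestronglyMeasurable 1 ?_
  filter_upwards [ae_circle hμ] with z hz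
  rw [norm_zpow, hz, one_zpow]

/-- the exponentials in `L²(μ)` -/
def el (j : ℤ) : Lp ℂ 2 μ := (memLp_zpow hμ j).toLp _

theorem el_coe (j : ℤ) : (el hμ j : ℂ → ℂ) =ᵐ[μ] fun z => z ^ j := MemLp.coeFn_toLp _

theorem conj_zpow_circle {z : ℂ} (hz : ‖z‖ = 1) (i : ℤ) : conj (z ^ i) = z ^ (-i) := by
  have h1 : ‖z ^ i‖ = 1 := by rw [norm_zpow, hz, one_zpow]
  rw [← Complex.inv_eq_conj h1, zpow_neg]

theorem inner_el (i j : ℤ) : ⟪el hμ i, el hμ j⟫_ℂ = ∫ z, z ^ (j - i) ∂μ := by
  rw [MeasureTheory.L2.inner_def]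
  apply integral_congr_ae
  filter_upwards [el_coe hμ i, el_coe hμ j, ae_circle hμ] with z h1 h2 hz
  have hz0 : z ≠ 0 := by
    rintro rfl
    simp at hz
  rw [h1, h2, RCLike.inner_apply, conj_zpow_circle hz, sub_eq_add_neg, zpow_add₀ hz0]

end meas

section unit

variable {K : Type} [NormedAddCommGroup K] [InnerProductSpace ℂ K] [CompleteSpace K]

/-- the vectors `W^j y` -/
def bl (u : unitary (K →L[ℂ] K)) (y : K) (j : ℤ) : K :=
  ((u ^ j : unitary (K →L[ℂ] K)) : K →L[ℂ] K) y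

theorem inner_bl (u : unitary (K →L[ℂ] K)) (y : K) (i j : ℤ) :
    ⟪bl u y i, bl u y j⟫_ℂ = ⟪y, bl u y (j - i)⟫_ℂ := by
  unfold bl
  rw [← ContinuousLinearMap.adjoint_inner_right, ← ContinuousLinearMap.star_eq_adjoint]
  have h : u ^ (j - i) = (u ^ i)⁻¹ * u ^ j := by
    rw [← zpow_neg, ← zpow_add]
    congr 1
    ring
  rw [h]
  rfl

theorem bl_add (u : unitary (K →L[ℂ] K)) (y : K) (n : ℕ) (j : ℤ) :
    bl u y (j + n) = ((u : K →L[ℂ] K) ^ n) (bl u y j) := by
  unfold bl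
  rw [add_comm, zpow_add, zpow_natCast]
  rfl

end unit

theorem moments {K : Type} [NormedAddCommGroup K] [InnerProductSpace ℂ K] [CompleteSpace K]
    (u : unitary (K →L[ℂ] K)) (y : K) {μ : Measure ℂ} [IsFiniteMeasure μ]
    (hμ : μ (Metric.sphere (0 : ℂ) 1)ᶜ = 0)
    (hm : ∀ n : ℕ, ∫ z, z ^ n ∂μ = ⟪y, ((u : K →L[ℂ] K) ^ n) y⟫_ℂ) (m : ℤ) :
    ∫ z, z ^ m ∂μ = ⟪y, bl u y m⟫_ℂ := by
  have h0 : ∀ n : ℕ, bl u y n = ((u : K →L[ℂ] K) ^ n) y := by
    intro n
    have := bl_add u y n 0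
    rw [zero_add] at this
    rw [this]
    unfold bl
    simp
  obtain ⟨n, rfl | rfl⟩ := m.eq_nat_or_neg
  · rw [h0]
    simpa using hm n
  · have h1 : ∫ z, z ^ (-(n : ℤ)) ∂μ = conj (∫ z, z ^ n ∂μ) := by
      rw [← integral_conj]
      apply integral_congr_ae
      filter_upwards [ae_circle hμ] with z hz
      have := conj_zpow_circle hz n
      rw [← this]
      simp
    rw [h1, hm n, ← h0, inner_conj_symm]
    have h2 := inner_bl u y n 0
    rw [zero_sub] at h2
    rw [← h2]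
    congr 1

section main

variable {K : Type} [NormedAddCommGroup K] [InnerProductSpace ℂ K] [CompleteSpace K]
  (u : unitary (K →L[ℂ] K)) (y : K) {μ : Measure ℂ} [IsFiniteMeasure μ]
  (hμ : μ (Metric.sphere (0 : ℂ) 1)ᶜ = 0)
  (hm : ∀ n : ℕ, ∫ z, z ^ n ∂μ = ⟪y, ((u : K →L[ℂ] K) ^ n) y⟫_ℂ)

/-- Laurent polynomials in `L²` -/
def Aop : (ℤ →₀ ℂ) →ₗ[ℂ] Lp ℂ 2 μ := Finsupp.linearCombination ℂ (el hμ)

/-- Laurent polynomials in `K` -/
def Bop : (ℤ →₀ ℂ) →ₗ[ℂ] K := Finsupp.linearCombination ℂ (bl u y)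

include hm in
theorem norm_AB (a : ℤ →₀ ℂ) : ‖Bop u y a‖ = ‖Aop hμ a‖ := by
  have h1 : ⟪Bop u y a, Bop u y a⟫_ℂ = ⟪Aop hμ a, Aop hμ a⟫_ℂ := by
    unfold Aop Bop
    rw [Finsupp.linearCombination_apply, Finsupp.linearCombination_apply, Finsupp.sum_inner,
      Finsupp.sum_inner]
    apply Finsupp.sum_congr
    intro i _
    rw [Finsupp.inner_sum, Finsupp.inner_sum]
    apply Finsupp.sum_congr
    intro j _
    simp only [inner_smul_left, inner_smul_right]
    rw [inner_bl, inner_el, moments u y hμ hm]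
  rw [inner_self_eq_norm_sq_to_K, inner_self_eq_norm_sq_to_K] at h1
  have h2 : ‖Bop u y a‖ ^ 2 = ‖Aop hμ a‖ ^ 2 := by exact_mod_cast h1
  exact (sq_eq_sq₀ (norm_nonneg _) (norm_nonneg _)).1 h2

theorem sq_norm_L2 (f : Lp ℂ 2 μ) : ‖f‖ ^ 2 = ∫ z, ‖f z‖ ^ 2 ∂μ := by
  have h1 : ⟪f, f⟫_ℂ = ((∫ z, ‖f z‖ ^ 2 ∂μ : ℝ) : ℂ) := by
    have h2 : ∫ z, ((‖f z‖ ^ 2 : ℝ) : ℂ) ∂μ = ((∫ z, ‖f z‖ ^ 2 ∂μ : ℝ) : ℂ) := integral_ofReal
    rw [MeasureTheory.L2.inner_def, ← h2]
    apply integral_congr_ae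
    refine Eventually.of_forall fun z => ?_
    simp only
    rw [inner_self_eq_norm_sq_to_K]
    simp
  rw [inner_self_eq_norm_sq_to_K] at h1
  have h3 := congrArg Complex.re h1
  simpa [← Complex.ofReal_pow] using h3

theorem dense_A (h4 : S_F4b) : DenseRange (Aop hμ) := by
  have hind : ∀ (s : Set ℂ) (hs : MeasurableSet s),
      indicatorConstLp 2 hs (measure_ne_top μ s) (1 : ℂ) ∈ (LinearMap.range (Aop hμ)).topologicalClosure := by
    intro s hs
    show _ ∈ closure _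
    rw [Metric.mem_closure_iff]
    intro ε hε
    obtain ⟨d, a, hda⟩ := h4 μ hμ s hs (ε ^ 2) (by positivity)
    let a' : ℤ →₀ ℂ := ∑ j ∈ Finset.range (2 * d + 1), Finsupp.single ((j : ℤ) - d) (a j)
    refine ⟨Aop hμ a', ⟨a', rfl⟩, ?_⟩
    rw [dist_comm, dist_eq_norm]
    have hA : Aop hμ a' = ∑ j ∈ Finset.range (2 * d + 1), a j • el hμ ((j : ℤ) - d) := by
      unfold Aop
      simp only [a', map_sum, Finsupp.linearCombination_single]
    have hco : (Aop hμ a' : ℂ → ℂ) =ᵐ[μ]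
        fun z => (z ^ d)⁻¹ * (∑ j ∈ Finset.range (2 * d + 1), a j * z ^ j) := by
      rw [hA]
      have e1 := Lp.coeFn_finsetSum (Finset.range (2 * d + 1)) (fun j => a j • el hμ ((j : ℤ) - d))
      have e2 : ∀ᵐ z ∂μ, ∀ j ∈ Finset.range (2 * d + 1),
          (a j • el hμ ((j : ℤ) - d) : Lp ℂ 2 μ) z = a j * z ^ ((j : ℤ) - d) := by
        rw [Finset.eventually_all]
        intro j _
        filter_upwards [Lp.coeFn_smul (a j) (el hμ ((j : ℤ) - d)), el_coe hμ ((j : ℤ) - d)]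
          with z h1 h2
        rw [h1, Pi.smul_apply, h2, smul_eq_mul]
      filter_upwards [e1, e2, ae_circle hμ] with z h1 h2 hz
      have hz0 : z ≠ 0 := by
        rintro rfl
        simp at hz
      rw [h1, Finset.sum_apply, Finset.sum_congr rfl h2, Finset.mul_sum]
      apply Finset.sum_congr rfl
      intro j _
      rw [zpow_sub₀ hz0, zpow_natCast, zpow_natCast]
      field_simp
    have hn : ‖Aop hμ a' - indicatorConstLp 2 hs (measure_ne_top μ s) (1 : ℂ)‖ ^ 2 < ε ^ 2 := by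
      rw [sq_norm_L2]
      refine lt_of_eq_of_lt ?_ hda
      apply integral_congr_ae
      filter_upwards [hco, Lp.coeFn_sub (Aop hμ a')
        (indicatorConstLp 2 hs (measure_ne_top μ s) (1 : ℂ)),
        indicatorConstLp_coeFn (p := 2) (hs := hs) (hμs := measure_ne_top μ s) (c := (1 : ℂ))]
        with z h1 h2 h3
      rw [h2, Pi.sub_apply, h1, h3]
    exact lt_of_pow_lt_pow_left₀ 2 hε.le hn
  have hall : ∀ f : Lp ℂ 2 μ, f ∈ (LinearMap.range (Aop hμ)).topologicalClosure := by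
    intro f
    refine Lp.induction (p := 2) ENNReal.ofNat_ne_top
      (motive := fun f => f ∈ (LinearMap.range (Aop hμ)).topologicalClosure) ?_ ?_ ?_ f
    · intro c s hs hμs
      have := (LinearMap.range (Aop hμ)).topologicalClosure.smul_mem c (hind s hs)
      convert this using 1
      rw [Lp.simpleFunc.coe_indicatorConst]
      ext1
      filter_upwards [indicatorConstLp_coeFn (p := 2) (hs := hs) (hμs := hμs.ne) (c := c),
        Lp.coeFn_smul c (indicatorConstLp 2 hs (measure_ne_top μ s) (1 : ℂ)),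
        indicatorConstLp_coeFn (p := 2) (hs := hs) (hμs := measure_ne_top μ s) (c := (1 : ℂ))]
        with z h1 h2 h3
      rw [h1, h2, Pi.smul_apply, h3]
      by_cases hz : z ∈ s <;> simp [hz]
    · intro f g hf hg _ h1 h2
      exact Submodule.add_mem _ h1 h2
    · exact Submodule.isClosed_topologicalClosure _
  intro f
  exact hall f

end main

theorem f4c (h4 : S_F4b) : S_F4c := by
  intro K _ _ _ W hW y μ hfin hμ hm s hs
  let u : unitary (K →L[ℂ] K) := ⟨W, hW⟩
  have hd := dense_A hμ h4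
  have hn := norm_AB u y hμ hm
  have hN : ∃ C, ∀ x, ‖Bop u y x‖ ≤ C * ‖Aop hμ x‖ := ⟨1, fun x => by rw [one_mul, hn x]⟩
  let V : Lp ℂ 2 μ →L[ℂ] K := (Bop u y).extendOfNorm (Aop hμ)
  have hV : ∀ a, V (Aop hμ a) = Bop u y a := fun a =>
    LinearMap.extendOfNorm_eq hd hN a
  have hVn : ∀ f, ‖V f‖ = ‖f‖ := by
    intro f
    refine hd.induction_on (p := fun f => ‖V f‖ = ‖f‖) f
      (isClosed_eq (V.continuous.norm) continuous_norm) ?_
    intro a
    rw [hV, hn]
  have hVe : ∀ j, V (el hμ j) = bl u y j := by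
    intro j
    have := hV (Finsupp.single j 1)
    unfold Aop Bop at this
    rw [Finsupp.linearCombination_single, Finsupp.linearCombination_single, one_smul,
      one_smul] at this
    exact this
  refine ⟨V (indicatorConstLp 2 hs (measure_ne_top μ s) (1 : ℂ)), ?_, ?_⟩
  · rw [hVn, norm_indicatorConstLp (by norm_num) (by norm_num)]
    simp only [norm_one, one_mul, ENNReal.toReal_ofNat]
    rw [← Real.rpow_natCast, ← Real.rpow_mul measureReal_nonneg]
    simp [measureReal_def]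
  · intro w
    let g : Lp ℂ 2 μ := ContinuousLinearMap.adjoint V w
    have hh : MemLp (fun z => conj (g z)) 2 μ := (Lp.memLp g).star
    refine ⟨fun z => conj (g z), hh, ?_⟩
    intro n
    have hG : MemLp (fun z => conj (z ^ n) * g z) 2 μ := by
      refine (Lp.memLp g).congr_norm ?_ ?_
      · refine AEStronglyMeasurable.mul ?_ (Lp.aestronglyMeasurable g)
        exact (Complex.continuous_conj.measurable.comp
          (measurable_id.pow_const n)).aestronglyMeasurable
      · filter_upwards [ae_circle hμ] with z hz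
        rw [norm_mul, RCLike.norm_conj, norm_pow, hz, one_pow, one_mul]
    let G : Lp ℂ 2 μ := hG.toLp _
    have hGc : (G : ℂ → ℂ) =ᵐ[μ] fun z => conj (z ^ n) * g z := MemLp.coeFn_toLp _
    have key : (innerSL ℂ w) ∘L (W ^ n) ∘L V = innerSL ℂ G := by
      refine ContinuousLinearMap.ext_on (s := Set.range (el hμ)) ?_ ?_
      · have h1 : (Submodule.span ℂ (Set.range (el hμ)) : Set (Lp ℂ 2 μ)) = Set.range (Aop hμ) := by
          unfold Aop
          rw [← Finsupp.range_linearCombination]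
          rfl
        rw [h1]
        exact hd
      · rintro _ ⟨j, rfl⟩
        show ⟪w, (W ^ n) (V (el hμ j))⟫_ℂ = ⟪G, el hμ j⟫_ℂ
        rw [hVe j]
        have h1 := bl_add u y n j
        have h2 : (W ^ n) (bl u y j) = V (el hμ (j + n)) := by
          rw [hVe, h1]
        rw [h2, ← ContinuousLinearMap.adjoint_inner_left]
        show ⟪g, el hμ (j + n)⟫_ℂ = ⟪G, el hμ j⟫_ℂ
        rw [MeasureTheory.L2.inner_def, MeasureTheory.L2.inner_def]
        apply integral_congr_ae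
        filter_upwards [hGc, el_coe hμ j, el_coe hμ (j + n), ae_circle hμ] with z h3 h4 h5 hz
        have hz0 : z ≠ 0 := by
          rintro rfl
          simp at hz
        rw [h3, h4, h5, RCLike.inner_apply, RCLike.inner_apply, zpow_add₀ hz0, zpow_natCast,
          map_mul, Complex.conj_conj]
        ring
    have h5 : ⟪w, (W ^ n) (V (indicatorConstLp 2 hs (measure_ne_top μ s) (1 : ℂ)))⟫_ℂ =
        ⟪G, indicatorConstLp 2 hs (measure_ne_top μ s) (1 : ℂ)⟫_ℂ :=
      congrArg (fun F : Lp ℂ 2 μ →L[ℂ] ℂ => F (indicatorConstLp 2 hs (measure_ne_top μ s) (1 : ℂ)))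
        key
    rw [h5, MeasureTheory.L2.inner_def]
    apply integral_congr_ae
    filter_upwards [hGc, indicatorConstLp_coeFn (p := 2) (hs := hs)
      (hμs := measure_ne_top μ s) (c := (1 : ℂ))] with z h3 h4
    rw [h3, h4, RCLike.inner_apply, map_mul, Complex.conj_conj]
    ring

end

end Pool.Agent.W638.PB
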